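import Pool.Agent.R713.Kraw

/-!
# MP_f4f39d_al, Q2: a Leonard triple extending the Krawtchouk pair `e + f, h` for `d = 2` such that
`[A, A^*]` lies outside the span of `I, A, A^*, A^ε`.
-/

set_option autoImplicit false

namespace Pool.Agent.Results.MP_f4f39d_al.CommutatorOutside

open Pool.Agent.R713 Module

/-- the matrix `A` of the problem: `A_{i,i+1} = d - i`, `A_{i+1,i} = i + 1`, other entries zero -/
def matA (K : Type*) [Field K] (d : ℕ) : Matrix (Fin (d + 1)) (Fin (d + 1)) K :=
  Matrix.of fun i j =>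
    if (i : ℕ) + 1 = j then (d : K) - i else if (j : ℕ) + 1 = i then (i : K) else 0

/-- the matrix `A^* = diag (d, d - 2, …, -d)` of the problem -/
def matAs (K : Type*) [Field K] (d : ℕ) : Matrix (Fin (d + 1)) (Fin (d + 1)) K :=
  Matrix.diagonal fun i => (d : K) - 2 * i

/-- `A` acting on `K^(d+1)` -/
def A (K : Type*) [Field K] (d : ℕ) : Module.End K (Fin (d + 1) → K) :=
  Matrix.toLin' (matA K d)

/-- `A^*` acting on `K^(d+1)` -/
def As (K : Type*) [Field K] (d : ℕ) : Module.End K (Fin (d + 1) → K) :=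
  Matrix.toLin' (matAs K d)

/-- `X` is in the span of `I, A, B, C` -/
def InSpan {K V : Type*} [Field K] [AddCommGroup V] [Module K V] (A B C X : Module.End K V) : Prop :=
  ∃ a b c e : K, X = a • 1 + b • A + c • B + e • C

theorem result (K : Type*) [Field K] [CharZero K] :
    ∃ C : Module.End K (Fin 3 → K), LeonardTriple (A K 2) (As K 2) C ∧
      ¬ InSpan (A K 2) (As K 2) C (A K 2 * As K 2 - As K 2 * A K 2) := by
  have h1 : A K 2 = Matrix.toLin' (Kraw.MA K) := by
    unfold A
    congr 1
    ext i j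
    fin_cases i <;> fin_cases j <;> simp [matA, Kraw.MA]
    norm_num
  have h2 : As K 2 = Matrix.toLin' (Kraw.MB K) := by
    unfold As
    congr 1
    ext i j
    fin_cases i <;> fin_cases j <;> simp [matAs, Kraw.MB]
    norm_num
  rw [h1, h2]
  refine ⟨_, Kraw.triple, ?_⟩
  rintro ⟨a, b, c, e, h⟩
  have := Kraw.not_mem_span (K := K) 1
  apply this
  rw [one_smul, h]
  refine Submodule.add_mem _ (Submodule.add_mem _ (Submodule.add_mem _ ?_ ?_) ?_) ?_ <;>
    refine Submodule.smul_mem _ _ (Submodule.subset_span ?_) <;> simp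

end Pool.Agent.Results.MP_f4f39d_al.CommutatorOutside
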